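import Pool.Agent.Lib.MP_0813d6_co.Rainbow

/-!
A counterexample to Q1, with hypergraphs written as finite families of finite sets of vertices.
-/

set_option autoImplicit false

namespace Pool.Agent.Results.MP_0813d6_co.NoFullRainbow

open Finset

/-- The cover number of a hypergraph `H` (a finite family of finite sets of natural numbers): the
least size of a set of vertices meeting every edge of `H`. -/
noncomputable def coverNumber (H : Finset (Finset ℕ)) : ℕ :=
  sInf {t : ℕ | ∃ C : Finset ℕ, C.card = t ∧ ∀ e ∈ H, (e ∩ C).Nonempty}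

/-- The vertex set of the edge with label `e k` on the side `k`. -/
def edge {r : ℕ} (e : Fin r → ℕ) : Finset ℕ := univ.image fun k : Fin r => Nat.pair k (e k)

theorem mem_edge {r : ℕ} {e : Fin r → ℕ} {v : ℕ} :
    v ∈ edge e ↔ ∃ k : Fin r, Nat.pair k (e k) = v := by
  simp [edge]

theorem card_edge {r : ℕ} (e : Fin r → ℕ) : (edge e).card = r := by
  rw [edge, card_image_of_injective, card_univ, Fintype.card_fin]
  intro k k' h
  exact Fin.ext (Nat.pair_eq_pair.1 h).1

theorem coverNumber_spec (H : Finset (Finset ℕ)) (hH : ∀ e ∈ H, e.Nonempty) :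
    ∃ C : Finset ℕ, C.card = coverNumber H ∧ ∀ e ∈ H, (e ∩ C).Nonempty := by
  refine Nat.sInf_mem (s := {t : ℕ | ∃ C : Finset ℕ, C.card = t ∧ ∀ e ∈ H, (e ∩ C).Nonempty})
    ⟨_, H.biUnion id, rfl, fun e he => ?_⟩
  obtain ⟨v, hv⟩ := hH e he
  exact ⟨v, mem_inter.2 ⟨hv, mem_biUnion.2 ⟨e, he, hv⟩⟩⟩

/-- For some `r ≥ 2` there are two non-empty `r`-partite hypergraphs `H 0`, `H 1` on common sides
`V j` such that the cover number of the union over every index set `I` exceeds
`(2r-2)(|I|-1)` (in the integers, the empty `I` included), the cover number of `H 0 ∪ H 1` being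
exactly `2r-1`, and there is no full rainbow matching. -/
theorem result :
    ∃ (r : ℕ) (V : Fin r → Finset ℕ) (H : Fin 2 → Finset (Finset ℕ)),
      2 ≤ r ∧
      (∀ j k, j ≠ k → Disjoint (V j) (V k)) ∧
      (∀ i, (H i).Nonempty) ∧
      (∀ i, ∀ e ∈ H i, e ⊆ univ.biUnion V ∧ e.card = r ∧ ∀ j, (e ∩ V j).card = 1) ∧
      (∀ I : Finset (Fin 2),
        (2 * (r : ℤ) - 2) * ((I.card : ℤ) - 1) < (coverNumber (I.biUnion H) : ℤ)) ∧
      (coverNumber (H 0 ∪ H 1) : ℤ) = 2 * (r : ℤ) - 1 ∧
      ¬ ∃ f : Fin 2 → Finset ℕ, (∀ i, f i ∈ H i) ∧ ∀ i j, i ≠ j → Disjoint (f i) (f j) := by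
  obtain ⟨r, A, B, hr, hA, hB, hcross, hcov⟩ :=
    Pool.Agent.Lib.MP_0813d6_co.exists_counterexample
  have hmem : ∀ i : Fin 2, ∀ s ∈ (![A.image edge, B.image edge] : Fin 2 → Finset (Finset ℕ)) i,
      ∃ e ∈ A ∪ B, edge e = s := by
    intro i s hs
    fin_cases i
    · obtain ⟨e, he, rfl⟩ := mem_image.1 hs
      exact ⟨e, mem_union_left _ he, rfl⟩
    · obtain ⟨e, he, rfl⟩ := mem_image.1 hs
      exact ⟨e, mem_union_right _ he, rfl⟩
  have hne : ∀ i : Fin 2,
      ((![A.image edge, B.image edge] : Fin 2 → Finset (Finset ℕ)) i).Nonempty := by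
    intro i
    fin_cases i
    · exact hA.image _
    · exact hB.image _
  have hedge : ∀ e : Fin r → ℕ, (edge e).Nonempty := fun e =>
    card_pos.1 (by rw [card_edge]; omega)
  have hmeet : ∀ a ∈ A, ∀ b ∈ B, (edge a ∩ edge b).Nonempty := by
    intro a ha b hb
    obtain ⟨k, hk⟩ := hcross a ha b hb
    exact ⟨Nat.pair k (a k), mem_inter.2 ⟨mem_edge.2 ⟨k, rfl⟩, mem_edge.2 ⟨k, by rw [hk]⟩⟩⟩
  have htau : coverNumber (A.image edge ∪ B.image edge) + 1 = 2 * r := by
    apply le_antisymm
    · obtain ⟨a, ha⟩ := hA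
      obtain ⟨b, hb⟩ := hB
      have h1 : coverNumber (A.image edge ∪ B.image edge) ≤ (edge a ∪ edge b).card := by
        refine Nat.sInf_le ⟨_, rfl, fun s hs => ?_⟩
        rcases mem_union.1 hs with hs | hs
        · obtain ⟨e, he, rfl⟩ := mem_image.1 hs
          exact (hmeet e he b hb).mono (inter_subset_inter_left subset_union_right)
        · obtain ⟨e, he, rfl⟩ := mem_image.1 hs
          refine Finset.Nonempty.mono (inter_subset_inter_left subset_union_left) ?_
          rw [inter_comm]
          exact hmeet a ha e he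
      have h2 := card_union_add_card_inter (edge a) (edge b)
      have h3 := card_pos.2 (hmeet a ha b hb)
      rw [card_edge, card_edge] at h2
      omega
    · obtain ⟨C, hC, hC'⟩ := coverNumber_spec (A.image edge ∪ B.image edge) (by
        intro s hs
        rcases mem_union.1 hs with hs | hs <;>
        · obtain ⟨e, -, rfl⟩ := mem_image.1 hs
          exact hedge e)
      let g : Fin r × ℕ → ℕ := fun p => Nat.pair p.1 p.2
      have hg : Function.Injective g := by
        rintro ⟨a, b⟩ ⟨a', b'⟩ h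
        obtain ⟨h1, h2⟩ := Nat.pair_eq_pair.1 h
        exact Prod.ext (Fin.ext h1) h2
      have key : ∀ e : Fin r → ℕ, (edge e ∩ C).Nonempty →
          ∃ k, (k, e k) ∈ C.preimage g hg.injOn := by
        rintro e ⟨v, hv⟩
        obtain ⟨h1, h2⟩ := mem_inter.1 hv
        obtain ⟨k, rfl⟩ := mem_edge.1 h1
        exact ⟨k, mem_preimage.2 h2⟩
      have h4 := hcov (C.preimage g hg.injOn)
        (fun e he => key e (hC' _ (mem_union_left _ (mem_image_of_mem _ he))))
        (fun e he => key e (hC' _ (mem_union_right _ (mem_image_of_mem _ he))))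
      have h5 : (C.preimage g hg.injOn).card ≤ C.card :=
        card_le_card_of_injOn g (fun p hp => mem_preimage.1 hp) hg.injOn
      omega
  refine ⟨r, fun j => (A ∪ B).image fun e => Nat.pair j (e j), ![A.image edge, B.image edge],
    hr, ?_, hne, ?_, ?_, ?_, ?_⟩
  · intro j k hjk
    rw [Finset.disjoint_left]
    intro v h1 h2
    obtain ⟨e, -, rfl⟩ := mem_image.1 h1
    obtain ⟨e', -, h⟩ := mem_image.1 h2
    exact hjk (Fin.ext (Nat.pair_eq_pair.1 h).1.symm)
  · intro i s hs
    obtain ⟨e, he, rfl⟩ := hmem i s hs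
    refine ⟨fun v hv => ?_, card_edge e, fun j => ?_⟩
    · obtain ⟨k, rfl⟩ := mem_edge.1 hv
      exact mem_biUnion.2 ⟨k, mem_univ _, mem_image.2 ⟨e, he, rfl⟩⟩
    · rw [card_eq_one]
      refine ⟨Nat.pair j (e j), ?_⟩
      ext v
      rw [mem_inter, mem_singleton]
      constructor
      · rintro ⟨h1, h2⟩
        obtain ⟨k, rfl⟩ := mem_edge.1 h1
        obtain ⟨e', -, h⟩ := mem_image.1 h2
        have hk : j = k := Fin.ext (Nat.pair_eq_pair.1 h).1
        rw [hk]
      · rintro rfl
        exact ⟨mem_edge.2 ⟨j, rfl⟩, mem_image.2 ⟨e, he, rfl⟩⟩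
  · intro I
    have h1 : I.card ≤ 2 := by simpa using card_le_univ I
    have hr' : (2 : ℤ) ≤ r := by exact_mod_cast hr
    by_cases hcard : I.card = 2
    · have hU : I = univ := eq_univ_of_card I (by simpa using hcard)
      subst hU
      have h2 : (univ : Finset (Fin 2)).biUnion
          (![A.image edge, B.image edge] : Fin 2 → Finset (Finset ℕ)) =
          A.image edge ∪ B.image edge := by
        ext s
        simp only [mem_biUnion, mem_univ, true_and, Fin.exists_fin_two, mem_union]
        rfl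
      rw [h2, hcard]
      push_cast
      omega
    · by_cases h0 : I.card = 0
      · rw [h0]
        have := Int.natCast_nonneg (coverNumber (I.biUnion
          (![A.image edge, B.image edge] : Fin 2 → Finset (Finset ℕ))))
        push_cast
        omega
      · have h3 : I.card = 1 := by omega
        obtain ⟨i, hi⟩ : I.Nonempty := card_pos.1 (by omega)
        obtain ⟨s, hs⟩ := hne i
        obtain ⟨C, hC, hC'⟩ := coverNumber_spec (I.biUnion
          (![A.image edge, B.image edge] : Fin 2 → Finset (Finset ℕ))) (by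
          intro t ht
          obtain ⟨i', -, ht'⟩ := mem_biUnion.1 ht
          obtain ⟨e, -, rfl⟩ := hmem i' t ht'
          exact hedge e)
        have h4 : 0 < C.card :=
          card_pos.2 ((hC' s (mem_biUnion.2 ⟨i, hi, hs⟩)).mono inter_subset_right)
        rw [h3, ← hC]
        push_cast
        omega
  · change (coverNumber (A.image edge ∪ B.image edge) : ℤ) = 2 * (r : ℤ) - 1
    omega
  · rintro ⟨f, hf, hdis⟩
    obtain ⟨a, ha, ha'⟩ := mem_image.1 (hf 0)
    obtain ⟨b, hb, hb'⟩ := mem_image.1 (hf 1)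
    have h := hdis 0 1 (by decide)
    rw [← ha', ← hb', disjoint_iff_inter_eq_empty] at h
    exact (hmeet a ha b hb).ne_empty h

end Pool.Agent.Results.MP_0813d6_co.NoFullRainbow
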